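import Pool.Agent.H.MP_b61c36_nt.Prob

namespace Pool.Agent.H.MP_b61c36_nt

open Classical Filter Topology Finset

def Up (y : ℕ → T) : Prop :=
  ∀ s t : ℝ, 0 < s → 2 * s < t → ∀ᶠ N : ℕ in atTop, (CC y N (s / N) : ℝ) ≤ t * N

def Lo (y : ℕ → T) : Prop :=
  ∀ s t : ℝ, 0 < s → t < 2 * s → ∀ᶠ N : ℕ in atTop, t * N ≤ (CC y N (s / N) : ℝ)

theorem CC_mono (y : ℕ → T) {N N' : ℕ} {r r' : ℝ} (h : N ≤ N') (h' : r ≤ r') :
    (CC y N r : ℝ) ≤ CC y N' r' := by
  rw [Nat.cast_le]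
  apply Finset.card_le_card
  intro p hp
  simp only [Finset.mem_filter, Finset.mem_product, Finset.mem_range] at hp ⊢
  exact ⟨⟨by omega, by omega⟩, hp.2.1, hp.2.2.trans h'⟩

theorem tendsto_sqrt : Tendsto Nat.sqrt atTop atTop :=
  tendsto_atTop.mpr fun b => (eventually_ge_atTop (b ^ 2)).mono fun _ h => Nat.le_sqrt'.mpr h

theorem ev_sq {η : ℝ} (hη : 0 < η) :
    ∀ᶠ m : ℕ in atTop, ((m : ℝ) + 1) ^ 2 ≤ (1 + η) * m ^ 2 ∧ 0 < m := by
  filter_upwards [tendsto_natCast_atTop_atTop.eventually_ge_atTop (3 / η),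
    eventually_gt_atTop 0] with m h1 h2
  refine ⟨?_, h2⟩
  have m1 : (1 : ℝ) ≤ m := by exact_mod_cast h2
  rw [div_le_iff₀ hη] at h1
  nlinarith

theorem up_of_sq {y : ℕ → T} (h : ∀ s : ℚ, (0 : ℝ) < s →
      Tendsto (fun m : ℕ => (CC y (m ^ 2) (s / ((m ^ 2 : ℕ) : ℝ)) : ℝ) / ((m ^ 2 : ℕ) : ℝ))
        atTop (𝓝 (2 * s))) : Up y := by
  intro s t hs ht
  obtain ⟨s', a1, a2⟩ := exists_rat_btwn (show s < t / 2 by linarith)
  obtain ⟨t', b1, b2⟩ := exists_between (show 2 * (s' : ℝ) < t by linarith)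
  have t0 : 0 < t' := by linarith
  set η := min ((s' - s) / s) ((t - t') / t') with hη
  have η0 : 0 < η := lt_min (div_pos (by linarith) hs) (div_pos (by linarith) t0)
  have η1 : η * s ≤ s' - s := (le_div_iff₀ hs).mp (min_le_left _ _)
  have η2 : η * t' ≤ t - t' := (le_div_iff₀ t0).mp (min_le_right _ _)
  have e1 := ((tendsto_add_atTop_nat 1).comp tendsto_sqrt).eventually
    ((h s' (by linarith)).eventually (gt_mem_nhds b1))
  filter_upwards [e1, tendsto_sqrt.eventually (ev_sq η0)] with N h1 h2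
  simp only [Function.comp] at h1
  set m := Nat.sqrt N with hm
  have c1 : (m : ℝ) ^ 2 ≤ N := by exact_mod_cast Nat.sqrt_le' N
  have c2 : N ≤ (m + 1) ^ 2 := (Nat.lt_succ_sqrt' N).le
  have m0 : (0 : ℝ) < m := by exact_mod_cast h2.2
  have N0 : (0 : ℝ) < N := lt_of_lt_of_le (by positivity) c1
  have c3 : ((m : ℝ) + 1) ^ 2 ≤ (1 + η) * N :=
    h2.1.trans (mul_le_mul_of_nonneg_left c1 (by linarith))
  rw [div_lt_iff₀ (by positivity)] at h1
  refine (CC_mono y c2 (r' := s' / (((m + 1) ^ 2 : ℕ) : ℝ)) ?_).trans (h1.le.trans ?_)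
  · rw [div_le_div_iff₀ N0 (by positivity)]
    push_cast
    nlinarith [mul_le_mul_of_nonneg_left c3 hs.le]
  · push_cast
    nlinarith [mul_le_mul_of_nonneg_left c3 t0.le]

theorem lo_of_sq {y : ℕ → T} (h : ∀ s : ℚ, (0 : ℝ) < s →
      Tendsto (fun m : ℕ => (CC y (m ^ 2) (s / ((m ^ 2 : ℕ) : ℝ)) : ℝ) / ((m ^ 2 : ℕ) : ℝ))
        atTop (𝓝 (2 * s))) : Lo y := by
  intro s t hs ht
  by_cases t0 : t ≤ 0
  · exact Eventually.of_forall fun N =>
      (mul_nonpos_of_nonpos_of_nonneg t0 (Nat.cast_nonneg _)).trans (Nat.cast_nonneg _)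
  push Not at t0
  obtain ⟨s', a1, a2⟩ := exists_rat_btwn (show t / 2 < s by linarith)
  obtain ⟨t', b1, b2⟩ := exists_between (show t < 2 * (s' : ℝ) by linarith)
  have s0 : (0 : ℝ) < s' := by linarith
  set η := min ((s - s') / s') ((t' - t) / t) with hη
  have η0 : 0 < η := lt_min (div_pos (by linarith) s0) (div_pos (by linarith) t0)
  have η1 : η * s' ≤ s - s' := (le_div_iff₀ s0).mp (min_le_left _ _)
  have η2 : η * t ≤ t' - t := (le_div_iff₀ t0).mp (min_le_right _ _)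
  have e1 := tendsto_sqrt.eventually ((h s' s0).eventually (lt_mem_nhds b2))
  filter_upwards [e1, tendsto_sqrt.eventually (ev_sq η0)] with N h1 h2
  set m := Nat.sqrt N with hm
  have c1 : m ^ 2 ≤ N := Nat.sqrt_le' N
  have c1' : (m : ℝ) ^ 2 ≤ N := by exact_mod_cast c1
  have c2 : (N : ℝ) ≤ (m + 1) ^ 2 := by exact_mod_cast (Nat.lt_succ_sqrt' N).le
  have m0 : (0 : ℝ) < m := by exact_mod_cast h2.2
  have N0 : (0 : ℝ) < N := lt_of_lt_of_le (by positivity) c1'
  have c3 : (N : ℝ) ≤ (1 + η) * m ^ 2 := c2.trans h2.1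
  have mp : (0 : ℝ) < ((m ^ 2 : ℕ) : ℝ) := by push_cast; positivity
  rw [lt_div_iff₀ mp] at h1
  refine le_trans (le_trans ?_ h1.le) (CC_mono y c1 ?_)
  · push_cast
    nlinarith [mul_le_mul_of_nonneg_left c3 t0.le, sq_nonneg (m : ℝ)]
  · rw [div_le_div_iff₀ mp N0]
    push_cast
    nlinarith [mul_le_mul_of_nonneg_left c3 s0.le, sq_nonneg (m : ℝ)]

noncomputable def win (y : ℕ → T) (N : ℕ) (x : T) (r : ℝ) : ℕ :=
  ((range N).filter (fun l => dist x (y l) ≤ r)).card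

theorem win_sq (y : ℕ → T) (N : ℕ) (x : T) (r : ℝ) :
    win y N x r * win y N x r ≤ win y N x r + CC y N (2 * r) := by
  have : ((range N).filter (fun l => dist x (y l) ≤ r)).offDiag.card ≤ CC y N (2 * r) := by
    apply Finset.card_le_card
    intro p hp
    simp only [Finset.mem_offDiag, Finset.mem_filter, Finset.mem_product] at hp ⊢
    refine ⟨⟨hp.1.1, hp.2.1.1⟩, hp.2.2, ?_⟩
    have := dist_triangle_left (y p.1) (y p.2) x
    linarith [hp.1.2, hp.2.1.2]
  rw [Finset.offDiag_card] at this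
  unfold win
  omega

theorem win_le {y z : ℕ → T} {L : ℕ} {d : ℝ} (h : ∀ n, L ≤ n → dist (z n) (y n) ≤ d) (N : ℕ)
    (x : T) {r r' : ℝ} (hr : r + d ≤ r') : win z N x r ≤ L + win y N x r' := by
  unfold win
  refine le_trans (Finset.card_le_card (t := range L ∪
    (range N).filter (fun l => dist x (y l) ≤ r')) ?_)
    ((Finset.card_union_le _ _).trans (by simp))
  intro l hl
  simp only [Finset.mem_filter, Finset.mem_union, Finset.mem_range] at hl ⊢
  by_cases hc : l < L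
  · exact Or.inl hc
  · refine Or.inr ⟨hl.1, ?_⟩
    have := dist_triangle x (z l) (y l)
    linarith [h l (by omega), hl.2]

theorem CC_le {y z : ℕ → T} {L : ℕ} {d : ℝ} (h : ∀ n, L ≤ n → dist (z n) (y n) ≤ d) (N : ℕ)
    {r r' : ℝ} (hr : r + 2 * d ≤ r') {W : ℕ} (hW : ∀ x, win z N x r ≤ W) :
    CC z N r ≤ CC y N r' + 2 * (W * L) := by
  set A := (range N ×ˢ range N).filter (fun p => p.1 < L ∧ dist (z p.1) (z p.2) ≤ r) with hA
  set B := (range N ×ˢ range N).filter (fun p => p.2 < L ∧ dist (z p.1) (z p.2) ≤ r) with hB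
  have a1 : A.card ≤ W * L := by
    have := Finset.card_le_mul_card_image_of_maps_to (s := A) (t := range L) (f := Prod.fst)
      (fun p hp => Finset.mem_range.mpr (Finset.mem_filter.mp hp).2.1) W (fun k _ => by
        refine le_trans (Finset.card_le_card_of_injOn Prod.snd ?_ ?_) (hW (z k))
        · intro p hp
          simp only [hA, Finset.coe_filter, Finset.mem_filter, Finset.mem_product,
            Set.mem_ofPred_eq] at hp ⊢
          exact ⟨hp.1.1.2, hp.2 ▸ hp.1.2.2⟩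
        · intro p hp p' hp' e
          exact Prod.ext ((Finset.mem_filter.mp hp).2.trans (Finset.mem_filter.mp hp').2.symm) e)
    rwa [Finset.card_range] at this
  have a2 : B.card ≤ W * L := by
    have := Finset.card_le_mul_card_image_of_maps_to (s := B) (t := range L) (f := Prod.snd)
      (fun p hp => Finset.mem_range.mpr (Finset.mem_filter.mp hp).2.1) W (fun k _ => by
        refine le_trans (Finset.card_le_card_of_injOn Prod.fst ?_ ?_) (hW (z k))
        · intro p hp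
          simp only [hB, Finset.coe_filter, Finset.mem_filter, Finset.mem_product,
            Set.mem_ofPred_eq] at hp ⊢
          exact ⟨hp.1.1.1, by rw [dist_comm]; exact hp.2 ▸ hp.1.2.2⟩
        · intro p hp p' hp' e
          exact Prod.ext e ((Finset.mem_filter.mp hp).2.trans (Finset.mem_filter.mp hp').2.symm))
    rwa [Finset.card_range] at this
  have a3 : CC z N r ≤ (((range N ×ˢ range N).filter
      (fun p => p.1 ≠ p.2 ∧ dist (y p.1) (y p.2) ≤ r')) ∪ (A ∪ B)).card := by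
    apply Finset.card_le_card
    intro p hp
    simp only [hA, hB, Finset.mem_filter, Finset.mem_union] at hp ⊢
    by_cases c1 : p.1 < L
    · exact Or.inr (Or.inl ⟨hp.1, c1, hp.2.2⟩)
    by_cases c2 : p.2 < L
    · exact Or.inr (Or.inr ⟨hp.1, c2, hp.2.2⟩)
    refine Or.inl ⟨hp.1, hp.2.1, ?_⟩
    have := dist_triangle4 (y p.1) (z p.1) (z p.2) (y p.2)
    have b1 := h p.1 (by omega)
    have b2 := h p.2 (by omega)
    rw [dist_comm] at b1
    linarith [hp.2.2]
  have a4 := a3.trans (Finset.card_union_le _ _)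
  have a5 := Finset.card_union_le A B
  unfold CC at a4 ⊢
  omega

theorem aux {y : ℕ → T} (h : Up y) {s η : ℝ} (hs : 0 < s) (hη : 0 < η) :
    ∀ᶠ N : ℕ in atTop, ∃ (L W : ℕ) (d : ℝ), 0 ≤ d ∧
      (∀ n : ℕ, L ≤ n → 1 / ((n : ℝ) + 1) ^ 5 ≤ d) ∧
      2 * d ≤ η / N ∧ (∀ x, win y N x (s / N) ≤ W) ∧ (2 * ((L + W) * L) : ℝ) ≤ η * N := by
  obtain ⟨K, hK⟩ := exists_nat_gt (2 * (2 * s) + 1)
  have K1 : (1 : ℝ) ≤ K := by linarith
  have tL := tendsto_natCast_atTop_atTop (R := ℝ).comp (tendsto_sqrt.comp tendsto_sqrt)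
  filter_upwards [h (2 * s) K (by linarith) (by linarith),
    tL.eventually_ge_atTop (8 * (1 + K) / η), tL.eventually_ge_atTop 1] with N h1 h2 h3
  simp only [Function.comp] at h2 h3
  set L := Nat.sqrt (Nat.sqrt N) with hL
  have a1 : L ^ 4 ≤ N := by
    calc L ^ 4 = (L ^ 2) ^ 2 := by ring
      _ ≤ (Nat.sqrt N) ^ 2 := Nat.pow_le_pow_left (Nat.sqrt_le' _) 2
      _ ≤ N := Nat.sqrt_le' N
  have a2 : N ≤ (L + 1) ^ 4 := by
    calc N ≤ (Nat.sqrt N + 1) ^ 2 := (Nat.lt_succ_sqrt' N).le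
      _ ≤ ((L + 1) ^ 2) ^ 2 := Nat.pow_le_pow_left (Nat.lt_succ_sqrt' _) 2
      _ = _ := by ring
  have a1' : (L : ℝ) ^ 4 ≤ N := by exact_mod_cast a1
  have a2' : (N : ℝ) ≤ (L + 1) ^ 4 := by exact_mod_cast a2
  have N0 : (0 : ℝ) < N := lt_of_lt_of_le (by positivity) a1'
  rw [div_le_iff₀ hη] at h2
  refine ⟨L, 1 + K * (L + 1) ^ 2, 1 / ((L : ℝ) + 1) ^ 5, by positivity, fun n hn => ?_, ?_,
    fun x => ?_, ?_⟩
  · have : (L : ℝ) ≤ n := by exact_mod_cast hn
    gcongr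
  · rw [mul_one_div, div_le_div_iff₀ (by positivity) N0]
    have : η * ((L : ℝ) + 1) ^ 5 = (η * (L + 1)) * (L + 1) ^ 4 := by ring
    rw [this]
    exact mul_le_mul (by nlinarith) a2' N0.le (by positivity)
  · have b1 := win_sq y N x (s / N)
    rw [← mul_div_assoc] at b1
    have b2 : CC y N (2 * s / N) ≤ K * N := by exact_mod_cast h1
    have K1' : 1 ≤ K := by exact_mod_cast K1
    have b3 : K * N ≤ (K * (L + 1) ^ 2) * (K * (L + 1) ^ 2) := by
      calc K * N ≤ (K * K) * (L + 1) ^ 4 := Nat.mul_le_mul (Nat.le_mul_self K) a2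
        _ = _ := by ring
    by_contra hc
    push Not at hc
    generalize K * (L + 1) ^ 2 = u at b3 hc
    generalize win y N x (s / N) = w at b1 hc
    have b4 : w * w ≤ w + u * u := by omega
    nlinarith
  · push_cast
    have c1 : (L : ℝ) + (1 + K * (L + 1) ^ 2) ≤ (1 + K) * (4 * L ^ 2) := by
      have : ((L : ℝ) + 1) ^ 2 ≤ 4 * L ^ 2 := by nlinarith
      nlinarith
    calc (2 * ((L + (1 + K * (L + 1) ^ 2)) * L) : ℝ) ≤ 2 * ((1 + K) * (4 * L ^ 2) * L) := by
          gcongr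
      _ = (8 * (1 + K)) * L ^ 3 := by ring
      _ ≤ (L * η) * L ^ 3 := by gcongr
      _ = η * L ^ 4 := by ring
      _ ≤ η * N := by gcongr

theorem up_pert {y z : ℕ → T} (h : Up y) (hz : ∀ n, dist (z n) (y n) ≤ 1 / ((n : ℝ) + 1) ^ 5) :
    Up z := by
  intro s t hs ht
  set η := (t - 2 * s) / 4 with hη
  have η0 : 0 < η := by linarith
  filter_upwards [aux h (s := s + η) (by linarith) η0,
    h (s + η) (2 * (s + η) + η) (by linarith) (by linarith)] with N ⟨L, W, d, d0, a1, a2, a3, a4⟩ a5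
  have hd : ∀ n, L ≤ n → dist (z n) (y n) ≤ d := fun n hn => (hz n).trans (a1 n hn)
  have b1 := CC_le hd N (r := s / N) (r' := (s + η) / N) (by rw [add_div]; linarith) (W := L + W)
    (fun x => (win_le hd N x (r' := (s + η) / N) (by rw [add_div]; linarith)).trans
      (Nat.add_le_add_left (a3 x) _))
  have b2 : (CC z N (s / N) : ℝ) ≤ CC y N ((s + η) / N) + 2 * ((L + W) * L) := by
    exact_mod_cast b1
  have : t = 2 * (s + η) + η + η := by rw [hη]; ring
  rw [this]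
  linarith

theorem lo_pert {y z : ℕ → T} (h : Up y) (h' : Lo y)
    (hz : ∀ n, dist (z n) (y n) ≤ 1 / ((n : ℝ) + 1) ^ 5) : Lo z := by
  intro s t hs ht
  set η := min ((2 * s - t) / 4) (s / 2) with hη
  have η0 : 0 < η := lt_min (by linarith) (by linarith)
  have η1 : η ≤ (2 * s - t) / 4 := min_le_left _ _
  have η2 : η ≤ s / 2 := min_le_right _ _
  filter_upwards [aux h (s := s - η) (by linarith) η0,
    h' (s - η) (2 * (s - η) - η) (by linarith) (by linarith)]
    with N ⟨L, W, d, d0, a1, a2, a3, a4⟩ a5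
  have hd : ∀ n, L ≤ n → dist (y n) (z n) ≤ d := fun n hn => by
    rw [dist_comm]; exact (hz n).trans (a1 n hn)
  have b1 := CC_le hd N (r := (s - η) / N) (r' := s / N) (by rw [sub_div]; linarith) (W := L + W)
    (fun x => (a3 x).trans (Nat.le_add_left _ _))
  have b2 : (CC y N ((s - η) / N) : ℝ) ≤ CC z N (s / N) + 2 * ((L + W) * L) := by
    exact_mod_cast b1
  have N0 : (0 : ℝ) ≤ N := Nat.cast_nonneg _
  nlinarith [mul_le_mul_of_nonneg_right η1 N0]

noncomputable def DD (y : ℕ → T) (N : ℕ) (r : ℝ) : ℕ :=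
  ((range N ×ˢ range N).filter (fun p => p.1 ≠ p.2 ∧ dist (y p.1) (y p.2) < r)).card

theorem tendsto_DD {y : ℕ → T} (h : Up y) (h' : Lo y) {s : ℝ} (hs : 0 < s) :
    Tendsto (fun N : ℕ => (DD y N (s / N) : ℝ) / N) atTop (𝓝 (2 * s)) := by
  rw [tendsto_order]
  constructor
  · intro t ht
    obtain ⟨t', a1, a2⟩ := exists_between ht
    obtain ⟨s', b1, b2⟩ := exists_between (show max (t' / 2) 0 < s from
      max_lt (by linarith) hs)
    rw [max_lt_iff] at b1
    filter_upwards [h' s' t' b1.2 (by linarith [b1.1]), eventually_gt_atTop 0] with N h1 h2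
    have N0 : (0 : ℝ) < N := by exact_mod_cast h2
    rw [lt_div_iff₀ N0]
    refine lt_of_lt_of_le (mul_lt_mul_of_pos_right a1 N0) (h1.trans ?_)
    rw [Nat.cast_le]
    apply Finset.card_le_card
    intro p hp
    simp only [Finset.mem_filter] at hp ⊢
    exact ⟨hp.1, hp.2.1, lt_of_le_of_lt hp.2.2 (div_lt_div_of_pos_right b2 N0)⟩
  · intro t ht
    obtain ⟨t', a1, a2⟩ := exists_between ht
    filter_upwards [h s t' hs a1, eventually_gt_atTop 0] with N h1 h2
    have N0 : (0 : ℝ) < N := by exact_mod_cast h2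
    rw [div_lt_iff₀ N0]
    refine lt_of_le_of_lt (le_trans ?_ h1) (mul_lt_mul_of_pos_right a2 N0)
    rw [Nat.cast_le]
    apply Finset.card_le_card
    intro p hp
    simp only [Finset.mem_filter] at hp ⊢
    exact ⟨hp.1, hp.2.1, hp.2.2.le⟩

end Pool.Agent.H.MP_b61c36_nt
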