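import Pool.Agent.H.MP_b61c36_nt.Count

namespace Pool.Agent.H.MP_b61c36_nt

open Classical Filter Topology Finset MeasureTheory

theorem freq_of_irr {x : ℝ} (hx : Irrational x) :
    ∃ᶠ q : ℕ in atTop, ∃ p : ℤ, |x - p / q| ≤ 1 / (q : ℝ) ^ 2 := by
  rw [frequently_atTop]
  intro Q0
  have h1 : ∀ᶠ n : ℕ in atTop, ∀ k ∈ Finset.Ico 1 Q0,
      1 / ((n : ℝ) + 1) < |k * x - round (k * x)| := by
    refine (Finset.eventually_all _).mpr fun k hk => ?_
    have k0 : k ≠ 0 := by have := (Finset.mem_Ico.mp hk).1; omega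
    have : 0 < |k * x - round (k * x)| :=
      abs_pos.mpr (sub_ne_zero.mpr ((hx.natCast_mul k0).ne_int _))
    exact tendsto_one_div_add_atTop_nhds_zero_nat.eventually (gt_mem_nhds this)
  obtain ⟨n, hn1, hn0⟩ := (h1.and (eventually_gt_atTop 0)).exists
  obtain ⟨k, k0, k1, k2⟩ := Real.exists_nat_abs_mul_sub_round_le x hn0
  refine ⟨k, ?_, round (k * x), ?_⟩
  · by_contra hc
    exact absurd k2 (not_le.mpr (hn1 k (Finset.mem_Ico.mpr ⟨k0, by omega⟩)))
  · have k0' : (0 : ℝ) < k := by exact_mod_cast k0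
    have k1' : (k : ℝ) ≤ n := by exact_mod_cast k1
    have e : x - (round (k * x) : ℤ) / k = (k * x - round (k * x)) / k := by field_simp
    rw [e, abs_div, abs_of_pos k0', div_le_iff₀ k0']
    refine k2.trans ?_
    rw [sq, div_mul_eq_mul_div, one_mul, div_mul_cancel_right₀ k0'.ne', ← one_div]
    gcongr
    linarith

theorem ae_small {κ : ℝ} (hκ : 0 < κ) :
    ∀ᵐ x : ℝ, ∃ᶠ q : ℕ in atTop, ∃ p : ℤ, |q * x - p| < κ / q := by
  have hr : Tendsto (fun q : ℕ => 1 / (q : ℝ) ^ 2) atTop (𝓝 0) :=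
    (Real.summable_one_div_nat_pow.mpr (by norm_num)).tendsto_atTop_zero
  have h := blimsup_cthickening_mul_ae_eq (volume : Measure ℝ) (fun _ => True)
    (fun q : ℕ => Set.range fun p : ℤ => (p : ℝ) / q) (M := κ / 2) (by linarith) _ hr
  rw [blimsup_true, blimsup_true] at h
  have hi : ∀ᵐ x : ℝ, Irrational x := by
    rw [ae_iff]
    simp only [Irrational, not_not]
    exact (Set.countable_range _).measure_zero _
  filter_upwards [h.mem_iff, hi] with x h1 h2
  rw [mem_limsup_iff_frequently_mem, mem_limsup_iff_frequently_mem] at h1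
  have h3 := h1.mpr ((freq_of_irr h2).mono fun q ⟨p, hp⟩ =>
    Metric.mem_cthickening_of_dist_le x (p / q) _ _ ⟨p, rfl⟩ hp)
  refine (h3.and_eventually (eventually_gt_atTop 0)).mono fun q ⟨a1, a2⟩ => ?_
  have q0 : (0 : ℝ) < q := by exact_mod_cast a2
  have a3 := Metric.cthickening_subset_thickening' (δ₂ := κ * (1 / (q : ℝ) ^ 2)) (by positivity)
    (mul_lt_mul_of_pos_right (by linarith) (by positivity)) _ a1
  obtain ⟨_, ⟨p, rfl⟩, hp⟩ := Metric.mem_thickening_iff.mp a3
  refine ⟨p, ?_⟩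
  have e : q * x - p = q * (x - p / q) := by field_simp
  rw [e, abs_mul, abs_of_pos q0]
  rw [Real.dist_eq] at hp
  calc q * |x - p / q| < q * (κ * (1 / (q : ℝ) ^ 2)) := mul_lt_mul_of_pos_left hp q0
    _ = κ / q := by field_simp

theorem exists_Q (κ : ℕ → ℝ) (hκ : ∀ j, 0 < κ j) : ∃ Q : ℕ → ℕ, ∀ᵐ x : ℝ, ∀ᶠ j : ℕ in atTop,
    ∃ q : ℕ, j < q ∧ q ≤ Q j ∧ ∃ p : ℤ, |q * x - p| < κ j / q := by
  set A : ℕ → ℕ → Set ℝ := fun j Q => Set.Icc (-j : ℝ) j \
    {x | ∃ q : ℕ, j < q ∧ q ≤ Q ∧ ∃ p : ℤ, |q * x - p| < κ j / q} with hA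
  have h1 : ∀ j, ∃ Q, volume (A j Q) ≤ (2⁻¹ : ENNReal) ^ j := by
    intro j
    have hm : ∀ Q, NullMeasurableSet (A j Q) volume := by
      intro Q
      refine (measurableSet_Icc.diff (IsOpen.measurableSet ?_)).nullMeasurableSet
      simp only [Set.ofPred_exists, Set.ofPred_and]
      refine isOpen_iUnion fun q => isOpen_const.inter (isOpen_const.inter
        (isOpen_iUnion fun p => isOpen_lt ?_ continuous_const))
      exact ((continuous_const.mul continuous_id).sub continuous_const).abs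
    have ha : Antitone (A j) := by
      intro Q Q' hQ x hx
      refine ⟨hx.1, ?_⟩
      rintro ⟨q, a1, a2, a3⟩
      exact hx.2 ⟨q, a1, a2.trans hQ, a3⟩
    have ht := tendsto_measure_iInter_atTop hm ha
      ⟨0, ne_top_of_le_ne_top measure_Icc_lt_top.ne (measure_mono Set.sdiff_subset)⟩
    have h0 : volume (⋂ Q, A j Q) = 0 := by
      apply measure_mono_null _ (ae_iff.mp (ae_small (hκ j)))
      intro x hx hf
      obtain ⟨q, a1, a2⟩ := (hf.and_eventually (eventually_gt_atTop j)).exists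
      exact (Set.mem_iInter.mp hx q).2 ⟨q, a2, le_rfl, a1⟩
    rw [h0] at ht
    exact (ht.eventually (ge_mem_nhds (ENNReal.pow_pos (by norm_num) j))).exists
  choose Q hQ using h1
  refine ⟨Q, ?_⟩
  have h2 : ∑' j, volume (A j (Q j)) ≠ ⊤ := by
    refine ne_top_of_le_ne_top ?_ (ENNReal.tsum_le_tsum hQ)
    rw [ENNReal.tsum_geometric]
    simp
  filter_upwards [ae_eventually_notMem h2] with x hx
  filter_upwards [hx, tendsto_natCast_atTop_atTop.eventually_ge_atTop |x|] with j a1 a2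
  by_contra hc
  exact a1 ⟨abs_le.mp a2, hc⟩

def bad (y : ℕ → ℕ) (t : ℕ) : Prop :=
  (t - 2 ^ Nat.log 2 t) * (y (Nat.log 2 t) + 1) < 2 ^ Nat.log 2 t

theorem bad_density {y : ℕ → ℕ} (h : ∀ k, ∀ᶠ n in atTop, k ≤ y n) (ε : ℝ) (hε : 0 < ε) :
    ∀ᶠ t : ℕ in atTop, (((range t).filter (bad y)).card : ℝ) ≤ ε * t := by
  obtain ⟨k, hk⟩ := exists_nat_gt (5 / ε)
  have k0 : 0 < k := by
    have : (0 : ℝ) < k := lt_trans (by positivity) hk
    exact_mod_cast this
  obtain ⟨n0, hn0⟩ := eventually_atTop.mp ((h k).and (eventually_ge_atTop k))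
  have key : ∀ n, n0 ≤ n →
      k * ((range (2 ^ n)).filter (bad y)).card ≤ k * 2 ^ n0 + 2 * 2 ^ n := by
    intro n hn
    induction hn with
    | refl =>
      have : ((range (2 ^ n0)).filter (bad y)).card ≤ 2 ^ n0 :=
        (Finset.card_filter_le _ _).trans (by simp)
      have := Nat.mul_le_mul_left k this
      omega
    | @step n hn ih =>
      obtain ⟨a1, a2⟩ := hn0 n hn
      have sub : (range (2 ^ (n + 1))).filter (bad y) ⊆
          (range (2 ^ n)).filter (bad y) ∪ Ico (2 ^ n) (2 ^ n + (2 ^ n / k + 1)) := by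
        intro t ht
        rw [Finset.mem_filter, Finset.mem_range] at ht
        rw [Finset.mem_union, Finset.mem_filter, Finset.mem_range, Finset.mem_Ico]
        by_cases hc : t < 2 ^ n
        · exact Or.inl ⟨hc, ht.2⟩
        · right
          have e : Nat.log 2 t = n := Nat.log_eq_of_pow_le_of_lt_pow (by omega) ht.1
          have b1 := ht.2
          unfold bad at b1
          rw [e] at b1
          have b2 : (t - 2 ^ n) * k ≤ (t - 2 ^ n) * (y n + 1) := Nat.mul_le_mul_left _ (by omega)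
          have b3 : t - 2 ^ n ≤ 2 ^ n / k := (Nat.le_div_iff_mul_le k0).mpr (by omega)
          omega
      have c1 := (Finset.card_le_card sub).trans (Finset.card_union_le _ _)
      rw [Nat.card_Ico, Nat.add_sub_cancel_left] at c1
      have c2 := Nat.mul_le_mul_left k c1
      have c3 : k * (2 ^ n / k) ≤ 2 ^ n := Nat.mul_div_le _ _
      have c4 : n < 2 ^ n := Nat.lt_two_pow_self
      rw [mul_add, mul_add, mul_one] at c2
      simp only [Nat.succ_eq_add_one, pow_succ] at c2 ⊢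
      omega
  filter_upwards [eventually_ge_atTop (k * 2 ^ n0)] with t ht
  have t1 : 2 ^ n0 ≤ t := le_trans (Nat.le_mul_of_pos_left _ k0) ht
  have t0 : t ≠ 0 := by have := Nat.two_pow_pos n0; omega
  have a1 : t < 2 ^ (Nat.log 2 t + 1) := Nat.lt_pow_succ_log_self (by norm_num) t
  have a2 : 2 ^ Nat.log 2 t ≤ t := Nat.pow_log_le_self 2 t0
  have a3 : n0 ≤ Nat.log 2 t := Nat.le_log_of_pow_le (by norm_num) t1
  have a4 := key (Nat.log 2 t + 1) (by omega)
  have a5 : ((range t).filter (bad y)).card ≤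
      ((range (2 ^ (Nat.log 2 t + 1))).filter (bad y)).card :=
    Finset.card_le_card (Finset.filter_subset_filter _ (Finset.range_subset_range.mpr a1.le))
  have a6 := Nat.mul_le_mul_left k a5
  rw [pow_succ] at a4 a6
  have a7 : k * ((range t).filter (bad y)).card ≤ 5 * t := by omega
  have a8 : (k : ℝ) * ((range t).filter (bad y)).card ≤ 5 * t := by exact_mod_cast a7
  have k0' : (0 : ℝ) < k := by exact_mod_cast k0
  rw [div_lt_iff₀ hε] at hk
  apply le_of_mul_le_mul_left _ k0'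
  have : (0 : ℝ) ≤ t := Nat.cast_nonneg _
  nlinarith

theorem sqrt2_sep {D : ℕ} (hD : 0 < D) : 1 / (4 * (D : ℝ)) ≤ ‖((D * √2 : ℝ) : T)‖ := by
  rw [UnitAddCircle.norm_eq]
  set p := round (D * √2) with hp
  have a1 : |D * √2 - p| ≤ 1 / 2 := abs_sub_round _
  have D1 : (1 : ℝ) ≤ D := by exact_mod_cast hD
  have s2 : √2 * √2 = 2 := Real.mul_self_sqrt (by norm_num)
  have s0 : 0 < √2 := by positivity
  have s3 : √2 < 3 / 2 := by nlinarith
  have a2 : |D * √2 + p| ≤ 4 * D := by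
    rw [abs_le] at a1 ⊢
    constructor <;> nlinarith [a1.1, a1.2]
  have a3 : (D * √2 - p) * (D * √2 + p) = ((2 * D ^ 2 - p ^ 2 : ℤ) : ℝ) := by
    push_cast
    linear_combination (D : ℝ) ^ 2 * s2
  have hi := irrational_sqrt_two.natCast_mul hD.ne'
  have a4 : (2 * D ^ 2 - p ^ 2 : ℤ) ≠ 0 := by
    intro h
    rw [h, Int.cast_zero, mul_eq_zero] at a3
    rcases a3 with a | a
    · exact hi.ne_int p (by linarith)
    · exact hi.ne_int (-p) (by push_cast; linarith)
  have a5 : (1 : ℝ) ≤ |D * √2 - p| * |D * √2 + p| := by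
    rw [← abs_mul, a3]
    exact_mod_cast Int.one_le_abs a4
  rw [div_le_iff₀ (by positivity)]
  exact a5.trans (mul_le_mul_of_nonneg_left a2 (abs_nonneg _))

theorem exists_close (x : T) {ε : ℝ} (hε : 0 < ε) (A : ℕ) :
    ∃ a : ℕ, A < a ∧ dist ((a * √2 : ℝ) : T) x ≤ ε := by
  have h1 : DenseRange (· • ((√2 : ℝ) : T) : ℤ → T) :=
    AddCircle.denseRange_zsmul_coe_iff.mpr (by simpa using irrational_sqrt_two)
  have h2 : MapClusterPt x atTop (· • ((√2 : ℝ) : T) : ℕ → T) :=
    ((mapClusterPt_atTop_nsmul_tfae x _).out 0 3).mpr (h1 x)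
  obtain ⟨a, a1, a2⟩ := ((h2.frequently (Metric.closedBall_mem_nhds x hε)).and_eventually
    (eventually_gt_atTop A)).exists
  refine ⟨a, a2, ?_⟩
  rw [← nsmul_eq_mul, AddCircle.coe_nsmul]
  exact a1

theorem exists_seq (S : ℕ → Prop) (y : ℕ → T)
    (hy : ∀ n, S n → S (n + 1) → y (n + 1) = y n + ((√2 : ℝ) : T)) :
    ∃ a : ℕ → ℕ, StrictMono a ∧ 0 < a 0 ∧
      (∀ n, S n → S (n + 1) → Nat.log 2 (n + 1) = Nat.log 2 n → a (n + 1) = a n + 1) ∧
      ∀ n, dist ((a n * √2 : ℝ) : T) (y n) ≤ 1 / ((n : ℝ) + 1) ^ 5 := by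
  set δ : ℕ → ℝ := fun n => 1 / ((2 ^ (Nat.log 2 n + 1) : ℕ) : ℝ) ^ 5 with hδ
  have δ0 : ∀ n, 0 < δ n := fun n => by simp only [hδ]; positivity
  choose f f1 f2 using fun n A => exists_close (y n) (δ0 n) A
  obtain ⟨a, ha0, ha⟩ : ∃ a : ℕ → ℕ, a 0 = f 0 0 ∧ ∀ n, a (n + 1) =
      if S n ∧ S (n + 1) ∧ Nat.log 2 (n + 1) = Nat.log 2 n then a n + 1 else f (n + 1) (a n) :=
    ⟨fun n => Nat.rec (f 0 0) (fun n a =>
      if S n ∧ S (n + 1) ∧ Nat.log 2 (n + 1) = Nat.log 2 n then a + 1 else f (n + 1) a) n,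
      rfl, fun _ => rfl⟩
  refine ⟨a, strictMono_nat_of_lt_succ fun n => ?_, ha0 ▸ f1 0 0,
    fun n h1 h2 h3 => by rw [ha, if_pos ⟨h1, h2, h3⟩], fun n => ?_⟩
  · rw [ha]
    split_ifs
    · omega
    · exact f1 _ _
  · have key : dist ((((a n : ℕ) : ℝ) * √2 : ℝ) : T) (y n) ≤ δ n := by
      induction n with
      | zero => rw [ha0]; exact f2 0 0
      | succ n ih =>
        rw [ha]
        split_ifs with h
        · rw [hy n h.1 h.2.1, Nat.cast_add, add_mul, Nat.cast_one, one_mul, AddCircle.coe_add,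
            dist_add_right]
          simp only [hδ, h.2.2]
          exact ih
        · exact f2 _ _
    refine key.trans ?_
    have : n + 1 ≤ 2 ^ (Nat.log 2 n + 1) := Nat.lt_pow_succ_log_self (by norm_num) n
    have : (n : ℝ) + 1 ≤ ((2 ^ (Nat.log 2 n + 1) : ℕ) : ℝ) := by exact_mod_cast this
    simp only [hδ]
    gcongr

theorem many_close {e a : ℕ → ℕ}
    (ha : ∀ n, bad e n → bad e (n + 1) → Nat.log 2 (n + 1) = Nat.log 2 n → a (n + 1) = a n + 1)
    {x : ℝ} {k q : ℕ} (hk : 0 < k) (hq : 0 < q) {p : ℤ}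
    (hp : |q * x - p| < 1 / (80000 * (k : ℝ) ^ 3) / q)
    (he : e (Nat.log 2 (384 * k ^ 2 * q) + 1) < k) :
    ∃ N : ℕ, q ≤ N ∧ 3 * N ≤ DD (fun n => ((a n * x : ℝ) : T)) N (1 / N) := by
  set j := Nat.log 2 (384 * k ^ 2 * q) + 1 with hj
  set A := 2 ^ j with hA
  have A1 : 384 * k ^ 2 * q < A := Nat.lt_pow_succ_log_self (by norm_num) _
  have A2 : A ≤ 2 * (384 * k ^ 2 * q) := by
    have := Nat.pow_log_le_self 2 (show 384 * k ^ 2 * q ≠ 0 by positivity)
    rw [hA, hj, pow_succ]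
    omega
  set u := 48 * k * q with hu
  set d := A / k with hd
  have d1 : k * d ≤ A := Nat.mul_div_le _ _
  have d2 : A < k * (d + 1) := Nat.lt_mul_div_succ A hk
  have d3 : d ≤ A := Nat.div_le_self _ _
  have d4 : 8 * u ≤ d := (Nat.le_div_iff_mul_le hk).mpr (by
    have : 8 * u * k = 384 * k ^ 2 * q := by rw [hu]; ring
    omega)
  have u0 : 0 < u := by positivity
  have lg : ∀ i < d, Nat.log 2 (A + i) = j := fun i hi =>
    Nat.log_eq_of_pow_le_of_lt_pow (by omega) (by rw [pow_succ]; omega)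
  have hb : ∀ i < d, bad e (A + i) := by
    intro i hi
    unfold bad
    rw [lg i hi, ← hA, Nat.add_sub_cancel_left]
    have c1 : (i + 1) * (e j + 1) ≤ d * k := Nat.mul_le_mul (by omega) (by omega)
    nlinarith
  have hv : ∀ i < d, a (A + i) = a A + i := by
    intro i hi
    induction i with
    | zero => rfl
    | succ i ih =>
      rw [← add_assoc, ha _ (hb i (by omega)) (hb (i + 1) hi)
        ((lg (i + 1) hi).trans (lg i (by omega)).symm), ih (by omega), add_assoc]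
  refine ⟨A + d, by nlinarith, ?_⟩
  have hc : ((range (d - u)) ×ˢ (range (48 * k))).card ≤
      DD (fun n => ((a n * x : ℝ) : T)) (A + d) (1 / (A + d : ℕ)) := by
    apply Finset.card_le_card_of_injOn (fun w => (A + w.1, A + w.1 + q * (w.2 + 1)))
    · rintro ⟨i, t⟩ hw
      simp only [Finset.coe_product, Set.mem_prod, Finset.mem_coe, Finset.mem_range] at hw
      have b1 : q * (t + 1) ≤ u := by
        rw [hu, mul_comm _ q]; exact Nat.mul_le_mul_left _ hw.2
      have b2 : 0 < q * (t + 1) := by positivity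
      simp only [Finset.coe_filter, Finset.mem_product, Finset.mem_range, Set.mem_ofPred_eq]
      refine ⟨⟨by omega, by omega⟩, by omega, ?_⟩
      rw [add_assoc, hv i (by omega), hv _ (by omega), dist_comm, dist_eq_norm,
        ← AddCircle.coe_sub]
      have e1 : ((a A + (i + q * (t + 1)) : ℕ) : ℝ) * x - ((a A + i : ℕ) : ℝ) * x =
          (t + 1) * (q * x - p) + (((t + 1) * p : ℤ) : ℝ) := by
        push_cast; ring
      have e2 : ((((t + 1) * p : ℤ) : ℝ) : T) = 0 :=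
        (AddCircle.coe_eq_zero_iff _).mpr ⟨(t + 1) * p, by simp⟩
      rw [e1, AddCircle.coe_add, e2, add_zero]
      refine lt_of_le_of_lt QuotientAddGroup.norm_mk_le_norm ?_
      have k0 : (0 : ℝ) < k := by exact_mod_cast hk
      have q0 : (0 : ℝ) < q := by exact_mod_cast hq
      have t1 : (t : ℝ) + 1 ≤ 48 * k := by exact_mod_cast hw.2
      have N1 : ((A + d : ℕ) : ℝ) ≤ 1536 * k ^ 2 * q := by
        exact_mod_cast (show A + d ≤ 1536 * k ^ 2 * q by nlinarith)
      have N0 : (0 : ℝ) < ((A + d : ℕ) : ℝ) := by exact_mod_cast (show 0 < A + d by omega)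
      rw [Real.norm_eq_abs, abs_mul, abs_of_pos (by positivity)]
      calc ((t : ℝ) + 1) * |q * x - p| ≤ (48 * k) * (1 / (80000 * (k : ℝ) ^ 3) / q) :=
            mul_le_mul t1 hp.le (abs_nonneg _) (by positivity)
        _ < 1 / (1536 * k ^ 2 * q) := by
            rw [lt_div_iff₀ (by positivity)]
            field_simp
            norm_num
        _ ≤ 1 / ((A + d : ℕ) : ℝ) := by gcongr
    · rintro ⟨i, t⟩ _ ⟨i', t'⟩ _ h
      simp only [Prod.mk.injEq] at h ⊢
      have h1 : i = i' := by omega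
      subst h1
      have h2 : q * (t + 1) = q * (t' + 1) := by omega
      exact ⟨rfl, by have := Nat.eq_of_mul_eq_mul_left hq h2; omega⟩
  refine le_trans ?_ hc
  rw [Finset.card_product, Finset.card_range, Finset.card_range]
  have g1 : d + 1 ≤ 8 * (d - u) := by omega
  have g2 : k * (d + 1) ≤ k * (8 * (d - u)) := Nat.mul_le_mul_left _ g1
  have g3 : (d - u) * (48 * k) = 6 * (k * (8 * (d - u))) := by ring
  omega

theorem main : ∃ a : ℕ → ℕ, StrictMono a ∧ 0 < a 0 ∧
    (∀ᵐ x : ℝ, ¬ Tendsto (fun N : ℕ => (DD (fun n => ((a n * x : ℝ) : T)) N (1 / N) : ℝ) / N)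
      atTop (𝓝 (2 * 1))) ∧
    ∀ s : ℝ, 0 < s → Tendsto (fun N : ℕ =>
      (DD (fun n => ((a n * √2 : ℝ) : T)) N (s / N) : ℝ) / N) atTop (𝓝 (2 * s)) := by
  obtain ⟨Q, hQ⟩ := exists_Q (fun j => 1 / (80000 * ((j + 1 : ℕ) : ℝ) ^ 3))
    (fun j => by positivity)
  set J : ℕ → ℕ := fun j => Nat.log 2 (384 * (j + 1) ^ 2 * Q j) + 1 + j with hJ
  set e : ℕ → ℕ := fun n => sInf {j | n ≤ J j} with he
  have e1 : ∀ k, ∀ᶠ n in atTop, k ≤ e n := by
    intro k
    filter_upwards [eventually_gt_atTop ((range k).sup J)] with n hn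
    by_contra hc
    have a1 : n ≤ J (e n) := Nat.sInf_mem (s := {j | n ≤ J j})
      ⟨n, show n ≤ Nat.log 2 (384 * (n + 1) ^ 2 * Q n) + 1 + n by omega⟩
    have a2 : J (e n) ≤ (range k).sup J := Finset.le_sup (Finset.mem_range.mpr (by omega))
    omega
  have hd := bad_density e1
  obtain ⟨y, y1, y2⟩ := exists_sq (bad e) (fun n => ((Nat.count (bad e) n * √2 : ℝ) : T)) hd (by
    intro s hs
    filter_upwards [hd (1 / (8 * s)) (by positivity), eventually_gt_atTop 0] with N h1 h2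
    have N0 : (0 : ℝ) < N := by exact_mod_cast h2
    have key : ∀ k < N, ∀ l < N, bad e k → k < l → s / N <
        dist ((Nat.count (bad e) l * √2 : ℝ) : T) ((Nat.count (bad e) k * √2 : ℝ) : T) := by
      intro k _ l hl h3 h4
      have a1 := Nat.count_strict_mono h3 h4
      have a2 : Nat.count (bad e) l ≤ Nat.count (bad e) N := Nat.count_monotone _ hl.le
      rw [dist_eq_norm, ← AddCircle.coe_sub, ← sub_mul, ← Nat.cast_sub a1.le]
      refine lt_of_lt_of_le ?_ (sqrt2_sep (by omega))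
      rw [← Nat.count_eq_card_filter_range] at h1
      have a3 : ((Nat.count (bad e) l - Nat.count (bad e) k : ℕ) : ℝ) ≤ Nat.count (bad e) N := by
        exact_mod_cast (Nat.sub_le _ _).trans a2
      have a4 : (0 : ℝ) < ((Nat.count (bad e) l - Nat.count (bad e) k : ℕ) : ℝ) := by
        exact_mod_cast (show 0 < Nat.count (bad e) l - Nat.count (bad e) k by omega)
      rw [div_lt_div_iff₀ N0 (by positivity)]
      have a5 := mul_le_mul_of_nonneg_left (a3.trans h1) (show 0 ≤ 8 * s by positivity)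
      rw [← mul_assoc, mul_one_div_cancel (by positivity)] at a5
      linarith
    intro k hk l hl h3 h4 h5
    rcases lt_or_gt_of_ne h5 with h | h
    · rw [dist_comm]; exact key k hk l hl h3 h
    · exact key l hl k hk h4 h)
  obtain ⟨a, a1, a2, a3, a4⟩ := exists_seq (bad e) y (fun n h1 h2 => by
    rw [y1 n h1, y1 _ h2, Nat.count_succ, if_pos h1, Nat.cast_add, add_mul, Nat.cast_one, one_mul,
      AddCircle.coe_add])
  refine ⟨a, a1, a2, ?_, fun s hs => tendsto_DD (up_pert (up_of_sq y2) a4)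
    (lo_pert (up_of_sq y2) (lo_of_sq y2) a4) hs⟩
  filter_upwards [hQ] with x hx ht
  obtain ⟨N0, hN0⟩ := eventually_atTop.mp
    (ht.eventually (gt_mem_nhds (show (2 * 1 : ℝ) < 3 by norm_num)))
  obtain ⟨j, ⟨q, b1, b2, p, b3⟩, b4⟩ := (hx.and (eventually_ge_atTop N0)).exists
  obtain ⟨N, c1, c2⟩ := many_close a3 (k := j + 1) (by omega) (by omega) b3 (by
    apply Nat.lt_succ_of_le
    apply Nat.sInf_le
    have := Nat.log_mono_right (b := 2) (Nat.mul_le_mul_left (384 * (j + 1) ^ 2) b2)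
    simp only [Set.mem_ofPred_eq, hJ]
    omega)
  have c3 := hN0 N (by omega)
  rw [div_lt_iff₀ (by exact_mod_cast (show 0 < N by omega))] at c3
  have c4 : (3 * N : ℝ) ≤ DD (fun n => ((a n * x : ℝ) : T)) N (1 / N) := by exact_mod_cast c2
  linarith

end Pool.Agent.H.MP_b61c36_nt
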