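import Mathlib

namespace Pool.Agent.H.MP_b61c36_nt

open Classical Filter Topology Finset MeasureTheory

abbrev T := UnitAddCircle
abbrev Om := ℕ → T

noncomputable def mu : Measure Om := Measure.addHaarMeasure ⊤

instance : IsProbabilityMeasure mu := ⟨by
  unfold mu
  rw [← TopologicalSpace.PositiveCompacts.coe_top]
  exact Measure.addHaarMeasure_self⟩

instance : mu.IsAddHaarMeasure := by unfold mu; infer_instance

instance : IsProbabilityMeasure (volume : Measure T) := ⟨UnitAddCircle.measure_univ⟩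

theorem integrable_bdd {X : Type*} [MeasurableSpace X] {ν : Measure X} [IsFiniteMeasure ν]
    {f : X → ℝ} (hf : Measurable f) {C : ℝ} (hC : ∀ x, |f x| ≤ C) : Integrable f ν :=
  Integrable.of_bound hf.aestronglyMeasurable C (Eventually.of_forall hC)

theorem orth (k : ℕ) {φ : T → ℝ} (hφ : Measurable φ) {C : ℝ} (hb : ∀ u, |φ u| ≤ C)
    (h0 : ∫ u, φ u = 0) {A : Om → T} (hA : Measurable A) {B : Om → ℝ} (hB : Measurable B)
    {C' : ℝ} (hB' : ∀ ω, |B ω| ≤ C') (iA : ∀ ω t, A (ω + Pi.single k t) = A ω)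
    (iB : ∀ ω t, B (ω + Pi.single k t) = B ω) :
    ∫ ω, φ (ω k - A ω) * B ω ∂mu = 0 := by
  have h1 : ∀ t : T, ∫ ω, φ (ω k - A ω) * B ω ∂mu = ∫ ω, φ (ω k - A ω + t) * B ω ∂mu := by
    intro t
    rw [← integral_add_right_eq_self (μ := mu) (fun ω => φ (ω k - A ω) * B ω) (Pi.single k t)]
    congr 1
    funext ω
    rw [iA, iB, Pi.add_apply, Pi.single_eq_same, add_sub_right_comm]
  have h2 : ∫ ω, φ (ω k - A ω) * B ω ∂mu = ∫ t : T, ∫ ω, φ (ω k - A ω + t) * B ω ∂mu := by
    simp_rw [← h1]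
    simp
  rw [h2, integral_integral_swap]
  · simp_rw [integral_mul_const, integral_add_left_eq_self, h0]
    simp
  · apply integrable_bdd (C := C * C')
    · exact (hφ.comp ((((measurable_pi_apply k).comp measurable_snd).sub
        (hA.comp measurable_snd)).add measurable_fst)).mul (hB.comp measurable_snd)
    · intro x
      simp only [Function.uncurry, abs_mul]
      exact mul_le_mul (hb _) (hB' _) (abs_nonneg _) ((abs_nonneg _).trans (hb 0))

theorem sq_sum_le {ι : Type*} (I : Finset ι) (Z : ι → Om → ℝ) (hZ : ∀ p, Measurable (Z p))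
    {C : ℝ} (hC : ∀ p ω, |Z p ω| ≤ C) {B : ℝ} (hB0 : 0 ≤ B) (D : ℕ) (nb : ι → Finset ι)
    (hD : ∀ p, (nb p).card ≤ D) (h1 : ∀ p ∈ I, ∀ p' ∈ I, ∫ ω, Z p ω * Z p' ω ∂mu ≤ B)
    (h2 : ∀ p ∈ I, ∀ p' ∈ I, p' ∉ nb p → ∫ ω, Z p ω * Z p' ω ∂mu = 0) :
    ∫ ω, (∑ p ∈ I, Z p ω) ^ 2 ∂mu ≤ I.card * (D * B) := by
  have hi : ∀ p p', Integrable (fun ω => Z p ω * Z p' ω) mu := fun p p' =>
    integrable_bdd ((hZ p).mul (hZ p')) (C := C * C) fun ω => by
      rw [abs_mul]
      exact mul_le_mul (hC _ _) (hC _ _) (abs_nonneg _) ((abs_nonneg _).trans (hC p ω))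
  simp_rw [sq, Finset.sum_mul_sum]
  rw [integral_finsetSum _ fun p _ => integrable_finsetSum _ fun p' _ => hi p p']
  rw [← nsmul_eq_mul, ← Finset.sum_const]
  apply Finset.sum_le_sum
  intro p hp
  rw [integral_finsetSum _ fun p' _ => hi p p']
  rw [← Finset.sum_filter_add_sum_filter_not I (fun p' => p' ∈ nb p)]
  rw [Finset.sum_eq_zero (s := I.filter (fun p' => ¬ p' ∈ nb p))
    fun p' hp' => h2 p hp p' (Finset.mem_filter.mp hp').1 (Finset.mem_filter.mp hp').2, add_zero]
  refine (Finset.sum_le_sum (g := fun _ => B)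
    fun p' hp' => h1 p hp p' (Finset.mem_filter.mp hp').1).trans ?_
  rw [Finset.sum_const, nsmul_eq_mul]
  apply mul_le_mul_of_nonneg_right _ hB0
  exact_mod_cast (Finset.card_le_card fun p' hp' => (Finset.mem_filter.mp hp').2).trans (hD p)

theorem ae_tendsto (W : ℕ → Om → ℝ) (hW : ∀ m, Measurable (W m)) (C : ℕ → ℝ)
    (hC : ∀ m ω, |W m ω| ≤ C m) {K : ℝ}
    (h : ∀ᶠ m : ℕ in atTop, ∫ ω, W m ω ^ 2 ∂mu ≤ K * m ^ 2) :
    ∀ᵐ ω ∂mu, Tendsto (fun m : ℕ => W m ω / m ^ 2) atTop (𝓝 0) := by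
  obtain ⟨m0, hm0⟩ := eventually_atTop.mp (h.and (eventually_gt_atTop 0))
  set V : ℕ → Om → ℝ := fun m ω => (W (m + m0) ω / ((m + m0 : ℕ) : ℝ) ^ 2) ^ 2 with hV
  have hVm : ∀ m, Measurable (V m) := fun m => ((hW _).div_const _).pow_const _
  have h1 : ∀ m, ∫⁻ ω, ENNReal.ofReal (V m ω) ∂mu ≤
      ENNReal.ofReal (|K| * (1 / ((m + m0 : ℕ) : ℝ) ^ 2)) := by
    intro m
    obtain ⟨a1, a2⟩ := hm0 (m + m0) (by omega)
    have a3 : (0 : ℝ) < ((m + m0 : ℕ) : ℝ) := by exact_mod_cast a2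
    have hi : Integrable (fun ω => W (m + m0) ω ^ 2) mu :=
      integrable_bdd ((hW _).pow_const _) (C := C (m + m0) ^ 2) fun ω => by
        rw [abs_pow]; exact pow_le_pow_left₀ (abs_nonneg _) (hC _ _) 2
    have e : V m = fun ω => W (m + m0) ω ^ 2 / (((m + m0 : ℕ) : ℝ) ^ 2) ^ 2 := by
      funext ω; simp only [hV, div_pow]
    rw [← ofReal_integral_eq_lintegral_ofReal (f := V m) (by rw [e]; exact hi.div_const _)
      (Eventually.of_forall fun ω => sq_nonneg _)]
    apply ENNReal.ofReal_le_ofReal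
    simp only [e]
    rw [integral_div, div_le_iff₀ (by positivity)]
    refine a1.trans ?_
    have : |K| * (1 / ((m + m0 : ℕ) : ℝ) ^ 2) * (((m + m0 : ℕ) : ℝ) ^ 2) ^ 2 =
        |K| * ((m + m0 : ℕ) : ℝ) ^ 2 := by field_simp
    rw [this]
    exact mul_le_mul_of_nonneg_right (le_abs_self _) (by positivity)
  have h2 : Summable fun m : ℕ => |K| * (1 / ((m + m0 : ℕ) : ℝ) ^ 2) :=
    ((summable_nat_add_iff (f := fun m : ℕ => 1 / (m : ℝ) ^ 2) m0).mpr
      (Real.summable_one_div_nat_pow.mpr (by norm_num))).mul_left _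
  have h3 : ∫⁻ ω, ∑' m, ENNReal.ofReal (V m ω) ∂mu ≠ ⊤ := by
    rw [lintegral_tsum fun m => (hVm m).ennreal_ofReal.aemeasurable]
    refine ne_top_of_le_ne_top ?_ (ENNReal.tsum_le_tsum h1)
    rw [← ENNReal.ofReal_tsum_of_nonneg (fun m => by positivity) h2]
    exact ENNReal.ofReal_ne_top
  filter_upwards [ae_lt_top' (AEMeasurable.tsum
    fun m => (hVm m).ennreal_ofReal.aemeasurable) h3] with ω hω
  have h4 := ENNReal.tendsto_atTop_zero_of_tsum_ne_top hω.ne
  have h5 : Tendsto (fun m => V m ω) atTop (𝓝 0) := by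
    have := (ENNReal.tendsto_toReal ENNReal.zero_ne_top).comp h4
    refine this.congr fun m => ?_
    simp only [Function.comp]
    exact ENNReal.toReal_ofReal (sq_nonneg _)
  rw [← tendsto_add_atTop_iff_nat m0, tendsto_zero_iff_abs_tendsto_zero]
  have h6 := h5.sqrt
  rw [Real.sqrt_zero] at h6
  refine h6.congr fun m => ?_
  simp only [hV, Function.comp]
  exact Real.sqrt_sq_eq_abs _

noncomputable def gg (r : ℝ) (u : T) : ℝ := (if ‖u‖ ≤ r then 1 else 0) - 2 * r

theorem gg_meas (r : ℝ) : Measurable (gg r) :=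
  (Measurable.ite (measurableSet_le measurable_norm measurable_const) measurable_const
    measurable_const).sub measurable_const

theorem gg_bdd {r : ℝ} (h0 : 0 ≤ r) (u : T) : |gg r u| ≤ 1 + 2 * r := by
  unfold gg
  split_ifs <;> rw [abs_le] <;> constructor <;> linarith

theorem gg_int {r : ℝ} (h0 : 0 ≤ r) (h1 : 2 * r ≤ 1) : ∫ u, gg r u = 0 := by
  have e : gg r = fun u => (Metric.closedBall (0 : T) r).indicator (fun _ => (1 : ℝ)) u - 2 * r := by
    funext u
    simp [gg, Set.indicator_apply]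
  rw [e, integral_sub ((integrable_const _).indicator measurableSet_closedBall)
    (integrable_const _), integral_indicator measurableSet_closedBall]
  simp only [integral_const, MeasurableSet.univ, measureReal_restrict_apply, Set.univ_inter,
    smul_eq_mul, mul_one, probReal_univ, one_mul]
  rw [Measure.real, AddCircle.volume_closedBall, min_eq_right h1,
    ENNReal.toReal_ofReal (by linarith), sub_self]

noncomputable def CC (y : ℕ → T) (N : ℕ) (r : ℝ) : ℕ :=
  ((range N ×ˢ range N).filter (fun p => p.1 ≠ p.2 ∧ dist (y p.1) (y p.2) ≤ r)).card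

noncomputable def X1 (S : ℕ → Prop) (N : ℕ) (r : ℝ) (ω : Om) : ℝ :=
  ∑ p ∈ ((range N).filter (fun n => ¬ S n)).offDiag, gg r (ω p.1 - ω p.2)

noncomputable def hh (S : ℕ → Prop) (c : ℕ → T) (N : ℕ) (r : ℝ) (u : T) : ℝ :=
  ∑ l ∈ (range N).filter S, gg r (u - c l)

noncomputable def X2 (S : ℕ → Prop) (c : ℕ → T) (N : ℕ) (r : ℝ) (ω : Om) : ℝ :=
  ∑ k ∈ (range N).filter (fun n => ¬ S n), hh S c N r (ω k)

theorem X1_var (S : ℕ → Prop) (N : ℕ) {r : ℝ} (h0 : 0 ≤ r) (h1 : 2 * r ≤ 1) :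
    ∫ ω, X1 S N r ω ^ 2 ∂mu ≤ N ^ 2 * (2 * (4 * r)) := by
  have hm : ∀ p : ℕ × ℕ, Measurable fun ω : Om => gg r (ω p.1 - ω p.2) := fun p =>
    (gg_meas r).comp ((measurable_pi_apply _).sub (measurable_pi_apply _))
  have b1 : ∀ u, |gg r u| ≤ 1 := fun u => by
    unfold gg
    split_ifs <;> rw [abs_le] <;> constructor <;> linarith
  have key : ∀ k l k' l' : ℕ, k ≠ l → k ≠ k' → k ≠ l' →
      ∫ ω, gg r (ω k - ω l) * gg r (ω k' - ω l') ∂mu = 0 := by
    intro k l k' l' a1 a2 a3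
    exact orth k (gg_meas r) b1 (gg_int h0 h1) (measurable_pi_apply l) (hm (k', l'))
      (fun ω => b1 _) (fun ω t => by simp [Pi.single_eq_of_ne a1.symm])
      (fun ω t => by simp [Pi.single_eq_of_ne a2.symm, Pi.single_eq_of_ne a3.symm])
  have ev : ∀ u v : T, gg r (u - v) = gg r (v - u) := fun u v => by
    unfold gg; rw [norm_sub_rev]
  refine (sq_sum_le _ (fun (p : ℕ × ℕ) ω => gg r (ω p.1 - ω p.2)) hm (fun p ω => b1 _)
    (B := 4 * r) (by linarith) 2 (fun p => {p, p.swap}) (fun p => Finset.card_le_two) ?_ ?_).trans ?_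
  · intro p hp p' _
    have hp2 := (Finset.mem_offDiag.mp hp).2.2
    have a0 : ∫ ω, gg r (ω p.1 - ω p.2) * 1 ∂mu = 0 :=
      orth p.1 (gg_meas r) b1 (gg_int h0 h1) (measurable_pi_apply p.2) measurable_const
        (C' := 1) (fun ω => by simp) (fun ω t => by simp [Pi.single_eq_of_ne hp2.symm])
        (fun ω t => rfl)
    simp only [mul_one] at a0
    have i1 : Integrable (fun ω : Om => gg r (ω p.1 - ω p.2)) mu :=
      integrable_bdd (hm p) fun ω => b1 _
    have a1 : ∫ ω, gg r (ω p.1 - ω p.2) + 4 * r ∂mu = 4 * r := by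
      rw [integral_add i1 (integrable_const _), a0]; simp
    rw [← a1]
    apply integral_mono _ (i1.add (integrable_const _))
    · intro ω
      have c1 := b1 (ω p'.1 - ω p'.2)
      have c2 : |gg r (ω p.1 - ω p.2)| ≤ gg r (ω p.1 - ω p.2) + 4 * r := by
        unfold gg
        split_ifs <;> rw [abs_le] <;> constructor <;> linarith
      refine (le_abs_self _).trans ?_
      rw [abs_mul]
      exact (mul_le_of_le_one_right (abs_nonneg _) c1).trans c2
    · exact integrable_bdd ((hm p).mul (hm p')) (C := 1) fun ω => by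
        rw [abs_mul]; exact mul_le_one₀ (b1 _) (abs_nonneg _) (b1 _)
  · rintro ⟨k, l⟩ hp ⟨k', l'⟩ hp' hn
    have a1 : k ≠ l := (Finset.mem_offDiag.mp hp).2.2
    have a2 : k' ≠ l' := (Finset.mem_offDiag.mp hp').2.2
    simp only [Prod.swap, Finset.mem_insert, Finset.mem_singleton, Prod.mk.injEq, not_or,
      not_and] at hn
    by_cases c : k ≠ k' ∧ k ≠ l'
    · exact key k l k' l' a1 c.1 c.2
    · rw [← key l k k' l' a1.symm (by omega) (by omega)]
      congr 1
      funext ω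
      rw [ev (ω k) (ω l)]
  · apply mul_le_mul_of_nonneg_right _ (by positivity)
    rw [Finset.offDiag_card]
    have : ((range N).filter (fun n => ¬ S n)).card ≤ N :=
      (Finset.card_filter_le _ _).trans (by simp)
    have := Nat.mul_le_mul this this
    exact_mod_cast (Nat.sub_le _ _).trans (this.trans (by rw [sq]))

theorem hh_meas (S : ℕ → Prop) (c : ℕ → T) (N : ℕ) (r : ℝ) : Measurable (hh S c N r) :=
  Finset.measurable_sum _ fun _ _ => (gg_meas r).comp (measurable_id.sub measurable_const)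

theorem X2_var (S : ℕ → Prop) (c : ℕ → T) (N : ℕ) {r : ℝ} (h0 : 0 ≤ r) (h1 : 2 * r ≤ 1)
    (hsep : ∀ k < N, ∀ l < N, S k → S l → k ≠ l → 2 * r < dist (c k) (c l)) :
    ∫ ω, X2 S c N r ω ^ 2 ∂mu ≤ N * (1 + 2 * r * N) ^ 2 := by
  have b1 : ∀ u, |hh S c N r u| ≤ 1 + 2 * r * N := by
    intro u
    unfold hh gg
    rw [Finset.sum_sub_distrib, Finset.sum_boole, Finset.sum_const, nsmul_eq_mul]
    have a1 : (((range N).filter S).filter (fun l => ‖u - c l‖ ≤ r)).card ≤ 1 := by
      rw [Finset.card_le_one]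
      intro k hk l hl
      simp only [Finset.mem_filter, Finset.mem_range] at hk hl
      by_contra hne
      have := hsep k hk.1.1 l hl.1.1 hk.1.2 hl.1.2 hne
      have t := dist_triangle_left (c k) (c l) u
      rw [dist_eq_norm u, dist_eq_norm u] at t
      linarith [hk.2, hl.2]
    have a2 : ((range N).filter S).card ≤ N := (Finset.card_filter_le _ _).trans (by simp)
    have a3 : ((((range N).filter S).filter (fun l => ‖u - c l‖ ≤ r)).card : ℝ) ≤ 1 := by
      exact_mod_cast a1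
    have a4 : (((range N).filter S).card : ℝ) ≤ N := by exact_mod_cast a2
    have a5 : (0 : ℝ) ≤ (((range N).filter S).filter (fun l => ‖u - c l‖ ≤ r)).card := by
      positivity
    have a6 : (0 : ℝ) ≤ ((range N).filter S).card := by positivity
    rw [abs_le]
    constructor <;> nlinarith
  have i0 : ∫ u, hh S c N r u = 0 := by
    unfold hh
    rw [integral_finsetSum (f := fun l u => gg r (u - c l)) _ fun l _ => integrable_bdd
      ((gg_meas r).comp (measurable_id.sub measurable_const)) fun u => gg_bdd h0 _]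
    apply Finset.sum_eq_zero
    intro l _
    rw [integral_sub_right_eq_self (gg r) (c l), gg_int h0 h1]
  have hm : ∀ k : ℕ, Measurable fun ω : Om => hh S c N r (ω k) := fun k =>
    (hh_meas S c N r).comp (measurable_pi_apply k)
  refine (sq_sum_le _ (fun k ω => hh S c N r (ω k)) hm (fun p ω => b1 _)
    (B := (1 + 2 * r * N) ^ 2) (by positivity) 1 (fun p => {p}) (fun p => by simp) ?_ ?_).trans ?_
  · intro k _ k' _
    have : ∫ _ : Om, (1 + 2 * r * N) ^ 2 ∂mu = (1 + 2 * r * N) ^ 2 := by simp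
    rw [← this]
    have bb : ∀ ω : Om, |hh S c N r (ω k) * hh S c N r (ω k')| ≤ (1 + 2 * r * N) ^ 2 := fun ω => by
      rw [abs_mul, sq]
      exact mul_le_mul (b1 _) (b1 _) (abs_nonneg _) (by positivity)
    exact integral_mono (integrable_bdd ((hm k).mul (hm k')) bb) (integrable_const _)
      fun ω => (le_abs_self _).trans (bb ω)
  · intro k _ k' _ hn
    have a1 : k' ≠ k := by simpa using hn
    have := orth k (hh_meas S c N r) b1 i0 (A := fun _ => 0) measurable_const (hm k')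
      (fun ω => b1 _) (fun _ _ => rfl) (fun ω t => by simp [Pi.single_eq_of_ne a1])
    simpa using this
  · rw [Nat.cast_one, one_mul]
    apply mul_le_mul_of_nonneg_right _ (by positivity)
    exact_mod_cast (Finset.card_filter_le _ _).trans (by simp)

theorem CC_eq (S : ℕ → Prop) (c : ℕ → T) (N : ℕ) (r : ℝ) (ω : Om)
    (hsep : ∀ k < N, ∀ l < N, S k → S l → k ≠ l → r < dist (c k) (c l)) :
    (CC (fun n => if S n then c n else ω n) N r : ℝ) = X1 S N r ω + 2 * X2 S c N r ω +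
      2 * r * (N ^ 2 - ((range N).filter S).card ^ 2 - (N - ((range N).filter S).card)) := by
  set y : ℕ → T := fun n => if S n then c n else ω n with hy
  set A := (range N).filter S with hA
  set B := (range N).filter (fun n => ¬ S n) with hB
  have yA : ∀ n ∈ A, y n = c n := fun n hn => if_pos (Finset.mem_filter.mp hn).2
  have yB : ∀ n ∈ B, y n = ω n := fun n hn => if_neg (Finset.mem_filter.mp hn).2
  have hAB : ∀ k ∈ A, ∀ l ∈ B, k ≠ l := fun k hk l hl e =>
    (Finset.mem_filter.mp hl).2 (e ▸ (Finset.mem_filter.mp hk).2)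
  have hc : (A.card : ℝ) + B.card = N := by
    have := Finset.card_filter_add_card_filter_not (s := range N) S
    rw [Finset.card_range] at this
    exact_mod_cast this
  set I : ℕ → ℕ → ℝ := fun k l => if k ≠ l ∧ dist (y k) (y l) ≤ r then 1 else 0 with hI
  have e0 : (CC y N r : ℝ) = ∑ k ∈ range N, ∑ l ∈ range N, I k l := by
    unfold CC
    rw [Finset.card_filter, Nat.cast_sum, Finset.sum_product]
    simp only [hI, Nat.cast_ite, Nat.cast_one, Nat.cast_zero]
  have sp : ∀ f : ℕ → ℝ, ∑ k ∈ range N, f k = ∑ k ∈ A, f k + ∑ k ∈ B, f k := fun f =>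
    (Finset.sum_filter_add_sum_filter_not _ _ _).symm
  have e1 : ∑ k ∈ A, ∑ l ∈ A, I k l = 0 := by
    refine Finset.sum_eq_zero fun k hk => Finset.sum_eq_zero fun l hl => if_neg ?_
    rintro ⟨h1, h2⟩
    rw [yA k hk, yA l hl] at h2
    simp only [hA, Finset.mem_filter, Finset.mem_range] at hk hl
    exact absurd h2 (not_le.mpr (hsep k hk.1 l hl.1 hk.2 hl.2 h1))
  have e2 : ∑ k ∈ B, ∑ l ∈ A, I k l = X2 S c N r ω + 2 * r * (B.card * A.card) := by
    unfold X2 hh
    rw [← hA, ← hB]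
    have : ∀ k ∈ B, ∑ l ∈ A, I k l = ∑ l ∈ A, gg r (ω k - c l) + 2 * r * A.card := by
      intro k hk
      rw [mul_comm _ (A.card : ℝ), ← nsmul_eq_mul, ← Finset.sum_const, ← Finset.sum_add_distrib]
      refine Finset.sum_congr rfl fun l hl => ?_
      simp only [hI, gg, yA l hl, yB k hk, dist_eq_norm, (hAB l hl k hk).symm, ne_eq,
        not_false_eq_true, true_and, sub_add_cancel]
    rw [Finset.sum_congr rfl this, Finset.sum_add_distrib, Finset.sum_const, nsmul_eq_mul]
    ring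
  have e3 : ∑ k ∈ A, ∑ l ∈ B, I k l = ∑ k ∈ B, ∑ l ∈ A, I k l := by
    rw [Finset.sum_comm]
    refine Finset.sum_congr rfl fun k _ => Finset.sum_congr rfl fun l _ => ?_
    simp only [hI, dist_comm (y l), ne_comm (a := l)]
  have e4 : ∑ k ∈ B, ∑ l ∈ B, I k l = X1 S N r ω + 2 * r * (B.card * B.card - B.card) := by
    unfold X1
    rw [← hB, ← Finset.sum_product', ← Finset.diag_union_offDiag,
      Finset.sum_union (Finset.disjoint_diag_offDiag _), Finset.sum_diag,
      Finset.sum_eq_zero (s := B) fun k _ => by simp [hI], zero_add]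
    have : (B.card * B.card - B.card : ℝ) = B.offDiag.card := by
      rw [Finset.offDiag_card, Nat.cast_sub (Nat.le_mul_self _)]
      push_cast; ring
    rw [this, mul_comm _ (B.offDiag.card : ℝ), ← nsmul_eq_mul, ← Finset.sum_const,
      ← Finset.sum_add_distrib]
    refine Finset.sum_congr rfl fun p hp => ?_
    obtain ⟨a1, a2, a3⟩ := Finset.mem_offDiag.mp hp
    simp only [hI, gg, yB _ a1, yB _ a2, dist_eq_norm, a3, ne_eq,
      not_false_eq_true, true_and, sub_add_cancel]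
  rw [e0, sp]
  simp only [sp, Finset.sum_add_distrib]
  rw [e1, e3, e2, e4, ← hc]
  ring

theorem exists_sq (S : ℕ → Prop) (c : ℕ → T)
    (hd : ∀ ε : ℝ, 0 < ε → ∀ᶠ N : ℕ in atTop, (((range N).filter S).card : ℝ) ≤ ε * N)
    (hsep : ∀ s : ℝ, 0 < s → ∀ᶠ N : ℕ in atTop,
      ∀ k < N, ∀ l < N, S k → S l → k ≠ l → s / N < dist (c k) (c l)) :
    ∃ y : ℕ → T, (∀ n, S n → y n = c n) ∧ ∀ s : ℚ, (0 : ℝ) < s →
      Tendsto (fun m : ℕ => (CC y (m ^ 2) (s / ((m ^ 2 : ℕ) : ℝ)) : ℝ) / ((m ^ 2 : ℕ) : ℝ))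
        atTop (𝓝 (2 * s)) := by
  have hsq : Tendsto (fun m : ℕ => m ^ 2) atTop atTop := tendsto_pow_atTop (by norm_num)
  have main : ∀ s : ℚ, ∀ᵐ ω ∂mu, (0 : ℝ) < s →
      Tendsto (fun m : ℕ => (CC (fun n => if S n then c n else ω n) (m ^ 2)
        (s / ((m ^ 2 : ℕ) : ℝ)) : ℝ) / ((m ^ 2 : ℕ) : ℝ)) atTop (𝓝 (2 * s)) := by
    intro s
    by_cases hs : (0 : ℝ) < s
    swap
    · exact Eventually.of_forall fun _ h => (hs h).elim
    have r0 : ∀ N : ℕ, (0 : ℝ) ≤ s / N := fun N => by positivity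
    have ev : ∀ᶠ N : ℕ in atTop, 2 * (s / N : ℝ) ≤ 1 ∧ 0 < N := by
      filter_upwards [tendsto_natCast_atTop_atTop.eventually_ge_atTop (2 * s : ℝ),
        eventually_gt_atTop 0] with N h1 h2
      refine ⟨?_, h2⟩
      rw [← mul_div_assoc, div_le_one (by exact_mod_cast h2)]
      exact h1
    have t1 := ae_tendsto (fun m ω => X1 S (m ^ 2) (s / ((m ^ 2 : ℕ) : ℝ)) ω)
      (fun m => Finset.measurable_sum _ fun p _ =>
        (gg_meas _).comp ((measurable_pi_apply _).sub (measurable_pi_apply _)))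
      (fun m => ∑ _p ∈ ((range (m ^ 2)).filter (fun n => ¬ S n)).offDiag,
        (1 + 2 * (s / ((m ^ 2 : ℕ) : ℝ))))
      (fun m ω => (Finset.abs_sum_le_sum_abs _ _).trans
        (Finset.sum_le_sum fun p _ => gg_bdd (r0 _) _)) (K := 8 * s) (by
        filter_upwards [hsq.eventually ev] with m hm
        refine (X1_var S _ (r0 _) hm.1).trans (le_of_eq ?_)
        have : ((m ^ 2 : ℕ) : ℝ) ≠ 0 := by exact_mod_cast hm.2.ne'
        push_cast at this ⊢
        field_simp
        ring)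
    have t2 := ae_tendsto (fun m ω => X2 S c (m ^ 2) (s / ((m ^ 2 : ℕ) : ℝ)) ω)
      (fun m => Finset.measurable_sum _ fun p _ =>
        (hh_meas _ _ _ _).comp (measurable_pi_apply _))
      (fun m => ∑ _k ∈ ((range (m ^ 2)).filter (fun n => ¬ S n)),
        ∑ _l ∈ (range (m ^ 2)).filter S, (1 + 2 * (s / ((m ^ 2 : ℕ) : ℝ))))
      (fun m ω => (Finset.abs_sum_le_sum_abs _ _).trans
        (Finset.sum_le_sum fun p _ => (Finset.abs_sum_le_sum_abs _ _).trans
          (Finset.sum_le_sum fun p _ => gg_bdd (r0 _) _))) (K := (1 + 2 * s) ^ 2) (by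
        filter_upwards [hsq.eventually ev, hsq.eventually (hsep (2 * s) (by linarith))]
          with m hm hm2
        refine (X2_var S c _ (r0 _) hm.1 (fun k a1 l a2 a3 a4 a5 => by
          rw [← mul_div_assoc]; exact hm2 k a1 l a2 a3 a4 a5)).trans (le_of_eq ?_)
        have : ((m ^ 2 : ℕ) : ℝ) ≠ 0 := by exact_mod_cast hm.2.ne'
        rw [mul_assoc, div_mul_cancel₀ _ this]
        push_cast
        ring)
    have t3 : Tendsto (fun N : ℕ => (((range N).filter S).card : ℝ) / N) atTop (𝓝 0) := by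
      rw [Metric.tendsto_nhds]
      intro ε hε
      filter_upwards [hd (ε / 2) (by linarith), eventually_gt_atTop 0] with N h1 h2
      have N0 : (0 : ℝ) < N := by exact_mod_cast h2
      rw [Real.dist_eq, sub_zero, abs_of_nonneg (by positivity), div_lt_iff₀ N0]
      nlinarith
    have t4 : Tendsto (fun N : ℕ => 2 * (s : ℝ) * (1 - ((((range N).filter S).card : ℝ) / N) ^ 2 -
        (1 - (((range N).filter S).card : ℝ) / N) * (N : ℝ)⁻¹)) atTop
        (𝓝 (2 * (s : ℝ) * (1 - 0 ^ 2 - (1 - 0) * 0))) :=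
      tendsto_const_nhds.mul ((tendsto_const_nhds.sub (t3.pow 2)).sub
        ((tendsto_const_nhds.sub t3).mul tendsto_inv_atTop_nhds_zero_nat))
    filter_upwards [t1, t2] with ω h1 h2 _
    have t5 := (h1.add (h2.const_mul 2)).add (t4.comp hsq)
    norm_num at t5
    refine t5.congr' ?_
    filter_upwards [hsq.eventually (hsep s hs), eventually_gt_atTop 0] with m a1 a2
    rw [CC_eq S c _ _ ω a1]
    have : (m : ℝ) ≠ 0 := by exact_mod_cast a2.ne'
    push_cast
    field_simp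
  obtain ⟨ω, hω⟩ := (ae_all_iff.mpr main).exists
  exact ⟨_, fun n hn => if_pos hn, hω⟩

end Pool.Agent.H.MP_b61c36_nt
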